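import Pool.Graph.R_seed8.Results.MP_4fa179_mp.StationaryWaves
import Pool.Agent.KS6_61.RW.Pr
import Pool.Agent.KS6_61.RW.Wv

/-!
# Stationary waves which are functionals of ergodic Gaussian fields (MP_4fa179_mp)

Every Benjamini-Schramm limit of Laplace eigenfunctions of a compact Riemannian manifold of
dimension `d`, rescaled to eigenvalue `1`, is the law of a stationary random field on `ℝ^d` with
smooth samples, `ΔF + F = 0` and `E F(0)² ≤ 1` (`IsStationaryWave` of the file
`StationaryWaves`). The theorem is about all such fields.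

Let `G` be a family of jointly stationary, jointly Gaussian fields, whose spectral measures have no
atoms (by the theorem of Maruyama this is ergodicity), and suppose that the wave `F` is ANY
measurable functional of `G` which commutes with the translations, however nonlinear. In
dimensions two and three `F` is then Gaussian, and it is a linear functional of `G`. The same is
true in every dimension if the spectral measures of `G` charge no affine hyperplane, for instance
for isotropic fields.

Proof. Let `X` be a finite linear combination of the values of `G`, with variance `v`, covariance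
`ρ(y) = E X X_y` and spectral measure `τ`. The nonlinear part `e^{iX} - e^{-v/2} (1 + iX)` of the
exponential has the autocorrelation `e^{-v} (e^ρ - 1 - ρ)`, hence the spectral measure
`e^{-v} ∑_{n ≥ 2} τ^{*n} / n!`. The unit sphere is a null set for it: the graph of the pairs `(a, b)`
with `|a + b| = 1` contains no complete bipartite graph `K_{3,3}` in dimension three (and no
`K_{2,3}` in the plane), and `τ` has no atoms. As the spectral measure of `F` lives on the unit
sphere, `F(0)` is orthogonal to the nonlinear parts of all exponentials, and this determines the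
conditional expectation: `F(0)` is in the closed linear span of `G`.
-/

set_option autoImplicit false
open MeasureTheory Filter Topology ProbabilityTheory
open scoped ENNReal NNReal

namespace Pool.Agent.Results.MP_4fa179_mp.FunctionalsOfGaussianFields

noncomputable section

open Pool.Agent.Results.MP_4fa179_mp.StationaryWaves (IsStationaryWave)

variable {d : ℕ} {Ω ι : Type*} [MeasurableSpace Ω]

/-- `G` is a family of centred, jointly Gaussian and jointly stationary random fields on `ℝ^d`,
indexed by `ι`. -/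
structure IsStationaryGaussian (P : Measure Ω) (G : ι → Ω → EuclideanSpace ℝ (Fin d) → ℝ) :
    Prop where
  measurable : ∀ i x, Measurable fun ω => G i ω x
  gaussian : ∀ (n : ℕ) (c : Fin n → ℝ) (i : Fin n → ι) (x : Fin n → EuclideanSpace ℝ (Fin d)),
    ∃ v : ℝ≥0, P.map (fun ω => ∑ k, c k * G (i k) ω (x k)) = gaussianReal 0 v
  stationary : ∀ x : EuclideanSpace ℝ (Fin d),
    P.map (fun ω (p : ι × EuclideanSpace ℝ (Fin d)) => G p.1 ω (p.2 + x)) =
      P.map (fun ω (p : ι × EuclideanSpace ℝ (Fin d)) => G p.1 ω p.2)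

/-- `σ` is the spectral measure of the centred stationary field `H`: it is finite and
`E H(0) H(x) = ∫ e^{i⟨ξ, x⟩} dσ(ξ)` for all `x`. -/
def IsSpectralMeasure (P : Measure Ω) (H : Ω → EuclideanSpace ℝ (Fin d) → ℝ)
    (σ : Measure (EuclideanSpace ℝ (Fin d))) : Prop :=
  IsFiniteMeasure σ ∧ ∀ x : EuclideanSpace ℝ (Fin d),
    ∫ ξ, Complex.exp ((inner ℝ ξ x : ℝ) * Complex.I) ∂σ = ((∫ ω, H ω 0 * H ω x ∂P : ℝ) : ℂ)

/-- `F` is a centred Gaussian field: all finite linear combinations of its values are centred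
Gaussian variables. -/
def IsGaussianField (P : Measure Ω) (F : Ω → EuclideanSpace ℝ (Fin d) → ℝ) : Prop :=
  ∀ (n : ℕ) (c : Fin n → ℝ) (x : Fin n → EuclideanSpace ℝ (Fin d)),
    ∃ v : ℝ≥0, P.map (fun ω => ∑ i, c i * F ω (x i)) = gaussianReal 0 v

/-- **Stationary waves which are functionals of diffuse Gaussian fields.** Let `F` be a stationary
wave on `ℝ^d`, `d ≥ 2`, and `G` a family of jointly stationary Gaussian fields with spectral
measures `σ i`. Suppose that `d ≤ 3` and the `σ i` have no atoms, or that the `σ i` charge no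
affine hyperplane. If `F` is a translation covariant functional of `G`, that is
`F(x) = Φ(G(· + x))` almost surely for every `x`, with a fixed measurable `Φ`, then `F(0)` is a
limit in `L²` of finite linear combinations of values of `G`, and `F` is a Gaussian field. -/
theorem result (hd : 2 ≤ d) (P : Measure Ω) (F : Ω → EuclideanSpace ℝ (Fin d) → ℝ)
    (hF : IsStationaryWave P F) (G : ι → Ω → EuclideanSpace ℝ (Fin d) → ℝ)
    (hG : IsStationaryGaussian P G) (σ : ι → Measure (EuclideanSpace ℝ (Fin d)))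
    (hσ : ∀ i, IsSpectralMeasure P (G i) (σ i))
    (hdiff : (d ≤ 3 ∧ ∀ i ξ, σ i {ξ} = 0) ∨
      ∀ (i : ι) (e : EuclideanSpace ℝ (Fin d)) (c : ℝ), e ≠ 0 → σ i {ξ | inner ℝ ξ e = c} = 0)
    (Φ : (ι × EuclideanSpace ℝ (Fin d) → ℝ) → ℝ) (hΦ : Measurable Φ)
    (hfun : ∀ x, ∀ᵐ ω ∂P, F ω x = Φ (fun p => G p.1 ω (p.2 + x))) :
    (∀ ε : ℝ, 0 < ε → ∃ (n : ℕ) (c : Fin n → ℝ) (i : Fin n → ι)
      (x : Fin n → EuclideanSpace ℝ (Fin d)),
      ∫ ω, (F ω 0 - ∑ k, c k * G (i k) ω (x k)) ^ 2 ∂P ≤ ε) ∧
    IsGaussianField P F := by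
  have hprob := hF.prob
  have hfin : ∀ i, IsFiniteMeasure (σ i) := fun i => (hσ i).1
  have hnt : Nontrivial (EuclideanSpace ℝ (Fin d)) := by
    have : Nonempty (Fin d) := ⟨⟨0, by omega⟩⟩
    exact inferInstance
  -- the path space
  obtain ⟨Γ, hΓ⟩ : ∃ Γ : Ω → (ι × EuclideanSpace ℝ (Fin d) → ℝ), ∀ ω p, Γ ω p = G p.1 ω p.2 :=
    ⟨fun ω p => G p.1 ω p.2, fun _ _ => rfl⟩
  have mΓ : Measurable Γ := by
    refine measurable_pi_iff.2 fun p => ?_
    simp only [hΓ]
    exact hG.measurable p.1 p.2
  have hQ : IsProbabilityMeasure (P.map Γ) := Measure.isProbabilityMeasure_map mΓ.aemeasurable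
  have reindex : ∀ a : ι × EuclideanSpace ℝ (Fin d) →₀ ℝ, ∃ (n : ℕ) (c : Fin n → ℝ)
      (i : Fin n → ι) (x : Fin n → EuclideanSpace ℝ (Fin d)), ∀ ω,
      Pool.Agent.KS6_61.RW.lin a (Γ ω) = ∑ k, c k * G (i k) ω (x k) := by
    intro a
    refine ⟨a.support.card, fun k => a (a.support.equivFin.symm k).1,
      fun k => (a.support.equivFin.symm k).1.1, fun k => (a.support.equivFin.symm k).1.2,
      fun ω => ?_⟩
    unfold Pool.Agent.KS6_61.RW.lin Finsupp.sum
    rw [← Finset.sum_coe_sort, ← Equiv.sum_comp a.support.equivFin.symm]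
    refine Finset.sum_congr rfl fun k _ => ?_
    show a (a.support.equivFin.symm k).1 * Γ ω (a.support.equivFin.symm k).1 = _
    rw [hΓ]
  have S : Pool.Agent.KS6_61.RW.Sys (P.map Γ) σ := by
    refine ⟨fun a => ?_, fun x => ⟨Pool.Agent.KS6_61.RW.shp_meas x, ?_⟩, fun i x => ?_⟩
    · obtain ⟨n, c, i, x, h⟩ := reindex a
      obtain ⟨v, hv⟩ := hG.gaussian n c i x
      refine ⟨v, ?_⟩
      rw [Measure.map_map (Pool.Agent.KS6_61.RW.lin_meas a) mΓ, ← hv]
      congr 1
      funext ω
      exact h ω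
    · rw [Measure.map_map (Pool.Agent.KS6_61.RW.shp_meas x) mΓ]
      have h := hG.stationary x
      have e1 : (Pool.Agent.KS6_61.RW.shp x ∘ Γ) =
          fun ω (p : ι × EuclideanSpace ℝ (Fin d)) => G p.1 ω (p.2 + x) := by
        funext ω p
        exact hΓ ω (p.1, p.2 + x)
      have e2 : Γ = fun ω (p : ι × EuclideanSpace ℝ (Fin d)) => G p.1 ω p.2 := by
        funext ω p
        exact hΓ ω p
      rw [e1, h, ← e2]
    · have h := (hσ i).2 x
      rw [charFun_apply, h]
      congr 1
      have m : Measurable fun ω : ι × EuclideanSpace ℝ (Fin d) → ℝ => ω (i, 0) * ω (i, x) :=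
        (measurable_pi_apply _).mul (measurable_pi_apply _)
      rw [integral_map mΓ.aemeasurable m.aestronglyMeasurable]
      simp only [hΓ]
  have hdiff' : (Module.finrank ℝ (EuclideanSpace ℝ (Fin d)) ≤ 3 ∧
      ∀ i, NullSingletonClass (σ i)) ∨ ∀ i, Pool.Agent.KS6_61.RW.NoHyp (σ i) := by
    rcases hdiff with ⟨h1, h2⟩ | h
    · left
      refine ⟨by rw [finrank_euclideanSpace_fin]; exact h1, fun i => ⟨h2 i⟩⟩
    · exact Or.inr fun i e c he => h i e c he
  -- the combinations
  have main : ∀ (n : ℕ) (c : Fin n → ℝ) (x : Fin n → EuclideanSpace ℝ (Fin d)),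
      (∀ ε : ℝ, 0 < ε → ∃ a : ι × EuclideanSpace ℝ (Fin d) →₀ ℝ,
        ∫ ω, (∑ i, c i * F ω (x i) - Pool.Agent.KS6_61.RW.lin a (Γ ω)) ^ 2 ∂P ≤ ε) ∧
      ∃ v : ℝ≥0, P.map (fun ω => ∑ i, c i * F ω (x i)) = gaussianReal 0 v := by
    intro n c x
    obtain ⟨l2, ρ, hρ, hρ1, hρ2⟩ := Pool.Agent.KS6_61.RW.wave_spec (P := P) hF.measurable
      hF.smooth hF.eigen hF.stationary hF.moment c x
    obtain ⟨Φ', hΦ'⟩ : ∃ Φ' : (ι × EuclideanSpace ℝ (Fin d) → ℝ) → ℝ, ∀ ω, Φ' ω =
      ∑ i, c i * Φ (Pool.Agent.KS6_61.RW.shp (x i) ω) := ⟨_, fun _ => rfl⟩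
    have mΦ' : Measurable Φ' := by
      have : Φ' = fun ω => ∑ i, c i * Φ (Pool.Agent.KS6_61.RW.shp (x i) ω) := funext hΦ'
      rw [this]
      exact Finset.measurable_sum _ fun i _ => measurable_const.mul
        (hΦ.comp (Pool.Agent.KS6_61.RW.shp_meas _))
    have hval : ∀ y, ∀ᵐ ω ∂P, Φ' (Pool.Agent.KS6_61.RW.shp y (Γ ω)) =
        ∑ i, c i * F ω (y + x i) := by
      intro y
      have h := ae_all_iff.2 fun i : Fin n => hfun (y + x i)
      filter_upwards [h] with ω hω
      rw [hΦ']
      refine Finset.sum_congr rfl fun i _ => ?_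
      rw [hω i, Pool.Agent.KS6_61.RW.shp_shp, add_comm (x i) y]
      congr 2
      funext p
      exact hΓ ω (p.1, p.2 + (y + x i))
    have ms : ∀ y, Measurable fun ω => Φ' (Pool.Agent.KS6_61.RW.shp y ω) := fun y =>
      mΦ'.comp (Pool.Agent.KS6_61.RW.shp_meas _)
    obtain ⟨h1, v, hv⟩ := S.gauss hdiff' mΦ' (fun y => by
        rw [memLp_map_measure_iff (ms y).aestronglyMeasurable mΓ.aemeasurable]
        refine (l2 y).ae_eq ?_
        filter_upwards [hval y] with ω hω
        exact hω.symm) hρ1 (fun y z => by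
        rw [← hρ2 y z]
        congr 1
        have m3 : Measurable fun ω => Φ' (Pool.Agent.KS6_61.RW.shp y ω) *
          Φ' (Pool.Agent.KS6_61.RW.shp z ω) := (ms y).mul (ms z)
        rw [integral_map mΓ.aemeasurable m3.aestronglyMeasurable]
        refine integral_congr_ae ?_
        filter_upwards [hval y, hval z] with ω h1 h2
        rw [h1, h2])
    have h0 : ∀ᵐ ω ∂P, Φ' (Γ ω) = ∑ i, c i * F ω (x i) := by
      filter_upwards [hval 0] with ω hω
      rw [Pool.Agent.KS6_61.RW.shp_zero] at hω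
      simpa only [zero_add] using hω
    constructor
    · intro ε hε
      obtain ⟨a, ha⟩ := h1 ε hε
      refine ⟨a, ?_⟩
      have m4 : Measurable fun ω => (Φ' ω - Pool.Agent.KS6_61.RW.lin a ω) ^ 2 :=
        (mΦ'.sub (Pool.Agent.KS6_61.RW.lin_meas a)).pow_const 2
      rw [integral_map mΓ.aemeasurable m4.aestronglyMeasurable] at ha
      refine le_trans (le_of_eq (integral_congr_ae ?_)) ha
      filter_upwards [h0] with ω hω
      rw [hω]
    · refine ⟨v, ?_⟩
      rw [← hv, Measure.map_map mΦ' mΓ]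
      refine Measure.map_congr ?_
      filter_upwards [h0] with ω hω
      exact hω.symm
  refine ⟨fun ε hε => ?_, fun n c x => (main n c x).2⟩
  obtain ⟨a, ha⟩ := (main 1 (fun _ => 1) (fun _ => 0)).1 ε hε
  obtain ⟨n, c, i, x, h⟩ := reindex a
  refine ⟨n, c, i, x, ?_⟩
  simp only [h, Finset.univ_unique, Fin.default_eq_zero, Fin.isValue, one_mul,
    Finset.sum_const, Finset.card_singleton, one_smul] at ha
  exact ha

end

end Pool.Agent.Results.MP_4fa179_mp.FunctionalsOfGaussianFields
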