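import Pool.Graph.R_seed8.Results.MP_4fa179_mp.StationaryWaves
import Pool.Agent.KS6_61.IS.Dec

/-!
# Independent splittings of the observables of a stationary wave (MP_4fa179_mp)

Every Benjamini-Schramm limit of Laplace eigenfunctions of a compact Riemannian manifold of
dimension `d`, rescaled to eigenvalue `1`, is the law of a stationary random field on `ℝ^d` with
smooth samples, `ΔF + F = 0` and `E F(0)² ≤ 1` (`IsStationaryWave` of the file
`StationaryWaves`). The theorem is about all such fields, in all dimensions.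

The linear observables of `F` are the limits in `L²` of the finite linear combinations of the
values of `F`. Suppose that they are split in any way into two linear spaces `K₁`, `K₂` such that
the observables in `K₁` are independent of the observables in `K₂`. The spaces need not be
translation invariant: for instance `K₁` could consist of the even and `K₂` of the odd observables
(`F(x) + F(-x)` and `F(x) - F(-x)`), or `K₁` could be spanned by the value `F(0)`. Then `F` is the
sum of three independent stationary fields; the first one has its values in `K₁`, the second one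
in `K₂`, and the third one is Gaussian. In particular `F` is Gaussian if neither `K₁` nor `K₂`
contains all translates of a nonzero observable.

This is a theorem of the type of Herschel and Maxwell, Bernstein, Darmois and Skitovich. It uses
that the spectrum is bounded: for a filtered Levy noise the past and the future of the noise
are an independent splitting.

Proof. Let `D` be a directional derivative; it acts on the observables by a bounded operator, as the
spectral measure lives on the unit sphere. Let `X ∈ K₁`, `DX = A + B` with `A ∈ K₁`, `B ∈ K₂`, and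
`Y ∈ K₂`. Stationarity gives `E D(exp(i(εX + Y))) = 0`; by independence and in the limit `ε → 0` this
is `E(B e^{iY}) = i E(BY) E e^{iY}`. So `B` is a Gaussian direction: an observable `Z` with
`E(Z e^{iY}) = i E(ZY) E e^{iY}` for all observables `Y`. The space of all Gaussian directions is
closed, translation invariant and compatible with the splitting, it is Gaussian and independent
of its orthogonal complement. The part of `K₁` in this complement is invariant under `D`.
-/

set_option autoImplicit false
open MeasureTheory Filter Topology ProbabilityTheory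
open scoped ENNReal NNReal

namespace Pool.Agent.Results.MP_4fa179_mp.IndependentSplittings

noncomputable section

open Pool.Agent.Results.MP_4fa179_mp.StationaryWaves (IsStationaryWave)

variable {d : ℕ} {Ω : Type*} [MeasurableSpace Ω]

/-- The linear observables of `F`: the closed linear span in `L²` of the values of `F`. -/
def observables (P : Measure Ω) (F : Ω → EuclideanSpace ℝ (Fin d) → ℝ) :
    Submodule ℝ (Lp ℝ 2 P) :=
  (Submodule.span ℝ {X : Lp ℝ 2 P | ∃ y, (X : Ω → ℝ) =ᵐ[P] fun ω => F ω y}).topologicalClosure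

/-- `W` is a stationary random field with values in the space `K` of random variables. -/
def IsStationaryIn (P : Measure Ω) (K : Submodule ℝ (Lp ℝ 2 P))
    (W : Ω → EuclideanSpace ℝ (Fin d) → ℝ) : Prop :=
  (∀ y, Measurable fun ω => W ω y) ∧
  (∀ y, ∃ X ∈ K, (X : Ω → ℝ) =ᵐ[P] fun ω => W ω y) ∧
  ∀ x : EuclideanSpace ℝ (Fin d),
    P.map (fun ω y => W ω (y + x)) = P.map (fun ω y => W ω y)

/-- `F` is a centred Gaussian field: all finite linear combinations of its values are centred
Gaussian variables. -/
def IsGaussianField (P : Measure Ω) (F : Ω → EuclideanSpace ℝ (Fin d) → ℝ) : Prop :=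
  ∀ (n : ℕ) (c : Fin n → ℝ) (x : Fin n → EuclideanSpace ℝ (Fin d)),
    ∃ v : ℝ≥0, P.map (fun ω => ∑ i, c i * F ω (x i)) = gaussianReal 0 v

/-- The space `K` of observables contains all translates `g x` of an observable `g 0` only if it
is zero. The translates are given by `E g(x + z) F(y + z) = E g(x) F(y)`. -/
def NoTranslates (P : Measure Ω) (F : Ω → EuclideanSpace ℝ (Fin d) → ℝ)
    (K : Submodule ℝ (Lp ℝ 2 P)) : Prop :=
  ∀ g : EuclideanSpace ℝ (Fin d) → Lp ℝ 2 P, (∀ x, g x ∈ K) →
    (∀ x y z, ∫ ω, (g (x + z) : Ω → ℝ) ω * F ω (y + z) ∂P =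
      ∫ ω, (g x : Ω → ℝ) ω * F ω y ∂P) → g = 0

/-- **Independent splittings of stationary waves.** Let `F` be a stationary wave, and let the
space of its linear observables be the sum of two linear spaces `K₁` and `K₂` such that every
element of `K₁` is independent of every element of `K₂`. Then `F` is the sum of three independent
stationary fields, the first one with values in `K₁`, the second one with values in `K₂`, the
third one Gaussian. If neither `K₁` nor `K₂` contains all translates of a nonzero observable, then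
`F` is a Gaussian field. -/
theorem result (P : Measure Ω) (F : Ω → EuclideanSpace ℝ (Fin d) → ℝ)
    (hF : IsStationaryWave P F) (K₁ K₂ : Submodule ℝ (Lp ℝ 2 P))
    (hK : K₁ ⊔ K₂ = observables P F)
    (hI : ∀ X ∈ K₁, ∀ Y ∈ K₂, IndepFun (X : Ω → ℝ) (Y : Ω → ℝ) P) :
    (∃ W : Fin 3 → Ω → EuclideanSpace ℝ (Fin d) → ℝ,
      (∀ y, ∀ᵐ ω ∂P, F ω y = W 0 ω y + W 1 ω y + W 2 ω y) ∧
      iIndepFun W P ∧ IsStationaryIn P K₁ (W 0) ∧ IsStationaryIn P K₂ (W 1) ∧
      IsStationaryIn P (observables P F) (W 2) ∧ IsGaussianField P (W 2)) ∧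
    (NoTranslates P F K₁ → NoTranslates P F K₂ → IsGaussianField P F) := by
  have := hF.prob
  have h0 : ∫ ω, F ω 0 ∂P = 0 :=
    (Pool.Agent.Results.MP_4fa179_mp.StationaryWaves.result P F hF).1
  have H : Pool.Agent.KS6_61.IS.WV P F :=
    ⟨hF.measurable, hF.smooth, hF.eigen, hF.stationary, hF.moment⟩
  obtain ⟨Y, y1, y2, y3, y4, y5, y6, y7⟩ := Pool.Agent.KS6_61.IS.dec H h0 hK hI
  have my : ∀ i y, Measurable fun ω => (Y i y : Ω → ℝ) ω := fun i y =>
    Pool.Agent.KS6_61.IS.mX (Y i y)
  have yo : ∀ y, Y 2 y ∈ observables P F := by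
    intro y
    have h1 : Y 2 y = Pool.Agent.KS6_61.IS.val H y - Y 0 y - Y 1 y := by
      rw [y1]; abel
    rw [h1]
    have k1 : K₁ ≤ observables P F := by rw [← hK]; exact le_sup_left
    have k2 : K₂ ≤ observables P F := by rw [← hK]; exact le_sup_right
    exact Submodule.sub_mem _ (Submodule.sub_mem _ (Pool.Agent.KS6_61.IS.val_mem H y)
      (k1 (y2 y))) (k2 (y3 y))
  have sumae : ∀ y, ∀ᵐ ω ∂P, F ω y = (Y 0 y : Ω → ℝ) ω + (Y 1 y : Ω → ℝ) ω + (Y 2 y : Ω → ℝ) ω := by
    intro y
    have h1 := y1 y
    filter_upwards [(H.mem y).coeFn_toLp, Lp.coeFn_add (Y 0 y + Y 1 y) (Y 2 y),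
      Lp.coeFn_add (Y 0 y) (Y 1 y)] with ω e1 e2 e3
    have e4 : (Pool.Agent.KS6_61.IS.val H y : Ω → ℝ) ω = F ω y := e1
    rw [← e4, h1, e2, Pi.add_apply, e3, Pi.add_apply]
  have gau : ∀ f : Ω → EuclideanSpace ℝ (Fin d) → ℝ, (∀ y, Measurable fun ω => f ω y) →
      (∀ y, ∀ᵐ ω ∂P, f ω y = (Y 2 y : Ω → ℝ) ω) → IsGaussianField P f := by
    intro f mf hf n c x
    refine Pool.Agent.KS6_61.IS.gauss_of_phi (Z := ∑ k, c k • Y 2 (x k)) (fun t => y6 n c x t)
      (Finset.measurable_sum _ fun i _ => measurable_const.mul (mf _)) ?_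
    have h1 : ∀ᵐ ω ∂P, ∀ k ∈ (Finset.univ : Finset (Fin n)),
        (c k • Y 2 (x k) : Lp ℝ 2 P) ω = c k * f ω (x k) := by
      refine (Filter.eventually_all_finset Finset.univ).2 fun k _ => ?_
      filter_upwards [Lp.coeFn_smul (c k) (Y 2 (x k)), hf (x k)] with ω h1 h2
      rw [h1, Pi.smul_apply, smul_eq_mul, h2]
    filter_upwards [Lp.coeFn_finsetSum Finset.univ (fun k => c k • Y 2 (x k)), h1] with ω e1 e2
    rw [e1, Finset.sum_apply]
    exact Finset.sum_congr rfl fun k hk => (e2 k hk).symm
  refine ⟨⟨fun i ω y => (Y i y : Ω → ℝ) ω, sumae, y5,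
    ⟨my 0, fun y => ⟨Y 0 y, y2 y, EventuallyEq.rfl⟩, y4 0⟩,
    ⟨my 1, fun y => ⟨Y 1 y, y3 y, EventuallyEq.rfl⟩, y4 1⟩,
    ⟨my 2, fun y => ⟨Y 2 y, yo y, EventuallyEq.rfl⟩, y4 2⟩,
    gau _ (my 2) fun y => ae_of_all _ fun ω => rfl⟩, fun t1 t2 => ?_⟩
  have inn : ∀ i x y, (inner ℝ (Y i x) (Pool.Agent.KS6_61.IS.val H y) : ℝ) =
      ∫ ω, (Y i x : Ω → ℝ) ω * F ω y ∂P := by
    intro i x y
    rw [Pool.Agent.KS6_61.IS.inner_eq]
    refine integral_congr_ae ?_
    filter_upwards [(H.mem y).coeFn_toLp] with ω hω
    have e4 : (Pool.Agent.KS6_61.IS.val H y : Ω → ℝ) ω = F ω y := hω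
    rw [e4]
  have z1 := t1 (Y 0) y2 fun x y z => by rw [← inn, ← inn]; exact y7 0 x y z
  have z2 := t2 (Y 1) y3 fun x y z => by rw [← inn, ← inn]; exact y7 1 x y z
  refine gau F hF.measurable fun y => ?_
  filter_upwards [sumae y, Lp.coeFn_zero ℝ 2 P] with ω h1 h2
  rw [h1, z1, z2]
  show (0 : Lp ℝ 2 P) ω + (0 : Lp ℝ 2 P) ω + (Y 2 y : Ω → ℝ) ω = (Y 2 y : Ω → ℝ) ω
  rw [h2]
  simp

end

end Pool.Agent.Results.MP_4fa179_mp.IndependentSplittings
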