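import Pool.Graph.R_seed8.Results.MP_4fa179_mp.StationaryWaves
import Pool.Agent.KS6_61.PD.Prd
import Pool.Agent.KS6_61.RW.Wv

/-!
# Stationary waves which are functionals of independent weakly mixing systems (MP_4fa179_mp)

Every Benjamini-Schramm limit of Laplace eigenfunctions of a compact Riemannian manifold of
dimension `d`, rescaled to eigenvalue `1`, is the law of a stationary random field on `ℝ^d` with
smooth samples, `ΔF + F = 0` and `E F(0)² ≤ 1` (`IsStationaryWave` of the file
`StationaryWaves`). The theorem is about all such fields.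

Let `G 1, ..., G n` be independent random elements of arbitrary measurable spaces, on which the
translations of `ℝ^d` act and preserve the laws: for instance independent stationary processes.
Suppose that these systems are weakly mixing. Let the wave `F` be ANY functional of
`(G 1, ..., G n)` which commutes with the translations. In dimensions two and three `F` is then
the sum of functionals of the single `G j`: there is no interaction between independent weakly
mixing systems. The same is true in every dimension if the spectral measures of the systems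
charge no affine hyperplane. In dimension four the assertion is false for weakly mixing systems: the
product of two independent Gaussian waves, of frequencies `r` and `s` with `r² + s² = 1`, in
two orthogonal planes is a wave.

Proof. Let `u` be a product of functions `u j` of the `G j`, where `j` runs over a set of at least two
indices and the `u j` have mean zero. Its spectral measure is the convolution of the spectral
measures of its factors, and it is zero on the unit sphere: the graph of the pairs `(a, b)` with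
`|a + b| = 1` contains no complete bipartite graph `K_{3,3}` in dimension three (and no `K_{2,3}`
in the plane), and the factors have no atoms. As the spectral measure of `F` lives on the unit
sphere, `F(0)` is orthogonal to `u`. These products, the functions of the single `G j` and the
constants are complete.
-/

set_option autoImplicit false
open MeasureTheory Filter Topology ProbabilityTheory
open scoped ENNReal NNReal

namespace Pool.Agent.Results.MP_4fa179_mp.ProductSystems

noncomputable section

open Pool.Agent.Results.MP_4fa179_mp.StationaryWaves (IsStationaryWave)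

variable {d n : ℕ} {Ω : Type*} [MeasurableSpace Ω]

/-- The translations of `ℝ^d` act on `S` by maps which preserve the measure `Q`. -/
structure IsAction {S : Type*} [MeasurableSpace S] (Q : Measure S)
    (T : EuclideanSpace ℝ (Fin d) → S → S) : Prop where
  zero : ∀ s, T 0 s = s
  add : ∀ x y s, T (x + y) s = T x (T y s)
  preserving : ∀ x, MeasurePreserving (T x) Q Q

/-- `σ` is the spectral measure of the function `u` on `S`: it is finite and
`∫ u(s) u(T x s) dQ(s) = ∫ e^{i⟨ξ, x⟩} dσ(ξ)` for all `x`. -/
def IsSpectralMeasure {S : Type*} [MeasurableSpace S] (Q : Measure S)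
    (T : EuclideanSpace ℝ (Fin d) → S → S) (u : S → ℝ)
    (σ : Measure (EuclideanSpace ℝ (Fin d))) : Prop :=
  IsFiniteMeasure σ ∧ ∀ x : EuclideanSpace ℝ (Fin d),
    ∫ ξ, Complex.exp ((inner ℝ ξ x : ℝ) * Complex.I) ∂σ = ((∫ s, u s * u (T x s) ∂Q : ℝ) : ℂ)

/-- The system is weakly mixing: all square integrable functions of mean zero have spectral
measures without atoms. -/
def IsWeaklyMixing {S : Type*} [MeasurableSpace S] (Q : Measure S)
    (T : EuclideanSpace ℝ (Fin d) → S → S) : Prop :=
  ∀ u : S → ℝ, Measurable u → MemLp u 2 Q → ∫ s, u s ∂Q = 0 →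
    ∃ σ, IsSpectralMeasure Q T u σ ∧ ∀ ξ, σ {ξ} = 0

/-- All square integrable functions of mean zero have spectral measures which charge no affine
hyperplane. -/
def NoHyperplanes {S : Type*} [MeasurableSpace S] (Q : Measure S)
    (T : EuclideanSpace ℝ (Fin d) → S → S) : Prop :=
  ∀ u : S → ℝ, Measurable u → MemLp u 2 Q → ∫ s, u s ∂Q = 0 →
    ∃ σ, IsSpectralMeasure Q T u σ ∧ ∀ (e : EuclideanSpace ℝ (Fin d)) (c : ℝ), e ≠ 0 →
      σ {ξ | inner ℝ ξ e = c} = 0

/-- **Stationary waves which are functionals of independent weakly mixing systems.** Let `F` be a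
stationary wave on `ℝ^d`, `d ≥ 2`, and let `G 1, ..., G n` be independent random elements of
measurable spaces `S j`, on which the translations act and preserve the laws. Suppose that `d ≤ 3`
and the systems are weakly mixing, or that their spectral measures charge no affine hyperplane. If
`F(x) = Φ(T 1 x (G 1), ..., T n x (G n))` almost surely for every `x`, with a fixed measurable
`Φ`, then there are functions `g j` on `S j`, square integrable and of mean zero, such that
`F(x) = g 1 (T 1 x (G 1)) + ... + g n (T n x (G n))` almost surely for every `x`. The spectral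
measures of the summands live on the unit sphere. -/
theorem result (hd : 2 ≤ d) (P : Measure Ω) (F : Ω → EuclideanSpace ℝ (Fin d) → ℝ)
    (hF : IsStationaryWave P F) {S : Fin n → Type*} [∀ j, MeasurableSpace (S j)]
    (G : ∀ j, Ω → S j) (hG : ∀ j, Measurable (G j)) (hI : iIndepFun G P)
    (T : ∀ j, EuclideanSpace ℝ (Fin d) → S j → S j) (hT : ∀ j, IsAction (P.map (G j)) (T j))
    (hmix : (d ≤ 3 ∧ ∀ j, IsWeaklyMixing (P.map (G j)) (T j)) ∨
      ∀ j, NoHyperplanes (P.map (G j)) (T j))
    (Φ : (∀ j, S j) → ℝ) (hΦ : Measurable Φ)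
    (hfun : ∀ x, ∀ᵐ ω ∂P, F ω x = Φ fun j => T j x (G j ω)) :
    ∃ g : ∀ j, S j → ℝ,
      (∀ j, Measurable (g j) ∧ MemLp (g j) 2 (P.map (G j)) ∧ ∫ s, g j s ∂(P.map (G j)) = 0) ∧
      (∀ x, ∀ᵐ ω ∂P, F ω x = ∑ j, g j (T j x (G j ω))) ∧
      ∀ j, ∃ σ, IsSpectralMeasure (P.map (G j)) (T j) (g j) σ ∧ σ {ξ | ‖ξ‖ ≠ 1} = 0 := by
  classical
  have hprob := hF.prob
  have hnt : Nontrivial (EuclideanSpace ℝ (Fin d)) := by
    have : Nonempty (Fin d) := ⟨⟨0, by omega⟩⟩
    exact inferInstance
  have hQ : ∀ j, IsProbabilityMeasure (P.map (G j)) := fun j =>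
    Measure.isProbabilityMeasure_map (hG j).aemeasurable
  -- the joint law
  obtain ⟨Γ, hΓ⟩ : ∃ Γ : Ω → ∀ j, S j, ∀ ω j, Γ ω j = G j ω := ⟨fun ω j => G j ω, fun _ _ => rfl⟩
  have eΓ : Γ = fun ω j => G j ω := by
    funext ω j
    exact hΓ ω j
  have mΓ : Measurable Γ := by
    rw [eΓ]
    exact measurable_pi_iff.2 hG
  have law : P.map Γ = Measure.pi fun j => P.map (G j) := by
    rw [eΓ]
    exact (iIndepFun_iff_map_fun_eq_pi_map fun j => (hG j).aemeasurable).1 hI
  have A : ∀ j, Pool.Agent.KS6_61.PD.Act (P.map (G j)) (T j) := fun j =>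
    ⟨(hT j).zero, (hT j).add, (hT j).preserving⟩
  have AP := Pool.Agent.KS6_61.PD.pT_act A
  have W : ∀ j, Pool.Agent.KS6_61.PD.WM (P.map (G j)) (T j) := by
    intro j u mu lu u0
    rcases hmix with ⟨h3, h⟩ | h
    · obtain ⟨σ, ⟨h1, h2⟩, h4⟩ := h j u mu lu u0
      have ns : NullSingletonClass σ := ⟨h4⟩
      refine ⟨σ, h1, fun x => ?_, Or.inl ⟨?_, ns⟩, ns⟩
      · rw [charFun_apply]
        exact h2 x
      · rw [finrank_euclideanSpace_fin]
        exact h3
    · obtain ⟨σ, ⟨h1, h2⟩, h4⟩ := h j u mu lu u0
      have nh : Pool.Agent.KS6_61.RW.NoHyp σ := fun e c he => h4 e c he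
      refine ⟨σ, h1, fun x => ?_, Or.inr nh, nh.nullS hnt⟩
      rw [charFun_apply]
      exact h2 x
  -- the spectral measure of the wave
  obtain ⟨l2, ρ, hρ, hρ1, hρ2⟩ := Pool.Agent.KS6_61.RW.wave_spec (P := P) hF.measurable
    hF.smooth hF.eigen hF.stationary hF.moment (n := 1) (fun _ => 1) (fun _ => 0)
  simp only [Finset.univ_unique, Fin.default_eq_zero, Fin.isValue, one_mul,
    Finset.sum_const, Finset.card_singleton, one_smul, add_zero] at l2 hρ2
  have pTΓ : ∀ x, ∀ᵐ ω ∂P, Φ (Pool.Agent.KS6_61.PD.pT T x (Γ ω)) = F ω x := by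
    intro x
    filter_upwards [hfun x] with ω hω
    rw [hω]
    congr 1
    funext j
    unfold Pool.Agent.KS6_61.PD.pT
    rw [hΓ]
  have p0 : ∀ s, Pool.Agent.KS6_61.PD.pT T 0 s = s := AP.zero
  have f0 : ∀ᵐ ω ∂P, Φ (Γ ω) = F ω 0 := by
    filter_upwards [pTΓ 0] with ω hω
    rw [← hω, p0]
  have lΦ : MemLp Φ 2 (Measure.pi fun j => P.map (G j)) := by
    rw [← law, memLp_map_measure_iff hΦ.aestronglyMeasurable mΓ.aemeasurable]
    refine (l2 0).ae_eq ?_
    filter_upwards [f0] with ω hω
    exact hω.symm
  have sΦ : Pool.Agent.KS6_61.PD.Spm (Measure.pi fun j => P.map (G j))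
      (Pool.Agent.KS6_61.PD.pT T) Φ ρ := by
    intro x
    have h1 := hρ2 0 x
    rw [sub_zero] at h1
    rw [← h1, ← law]
    congr 1
    rw [integral_map mΓ.aemeasurable
      (by
        rw [law]
        exact (hΦ.mul (hΦ.comp (AP.mp x).measurable)).aestronglyMeasurable)]
    refine integral_congr_ae ?_
    filter_upwards [f0, pTΓ x] with ω h2 h3
    rw [h2, h3]
  have mΦ : ∫ s, Φ s ∂(Measure.pi fun j => P.map (G j)) = 0 := by
    rw [← law, integral_map mΓ.aemeasurable hΦ.aestronglyMeasurable,
      ← (Pool.Agent.Results.MP_4fa179_mp.StationaryWaves.result P F hF).1]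
    exact integral_congr_ae f0
  obtain ⟨g, mg, lg, g0, hg⟩ := Pool.Agent.KS6_61.PD.splitting A W hΦ lΦ hρ1 sΦ mΦ
  have gx : ∀ x, ∀ᵐ s ∂(Measure.pi fun j => P.map (G j)),
      Φ (Pool.Agent.KS6_61.PD.pT T x s) = ∑ j, g j (T j x (s j)) := fun x =>
    (AP.mp x).quasiMeasurePreserving.ae hg
  refine ⟨g, fun j => ⟨mg j, lg j, g0 j⟩, fun x => ?_, fun j => ?_⟩
  · have h1 := gx x
    rw [← law] at h1
    have h2 := ae_of_ae_map mΓ.aemeasurable h1
    filter_upwards [h2, pTΓ x] with ω h3 h4
    rw [← h4, h3]
    simp only [hΓ]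
  · choose σ hσ1 hσ2 hσ3 using fun j => W j (g j) (mg j) (lg j) (g0 j)
    have e := Pool.Agent.KS6_61.PD.split_spec A sΦ mg lg g0 hg hσ1 hσ2
    refine ⟨σ j, ⟨hσ1 j, fun x => ?_⟩, ?_⟩
    · rw [← hσ2 j x, charFun_apply]
    · have h1 : σ j ≤ ρ := by
        rw [e]
        exact Finset.single_le_sum (f := σ) (fun i _ => Measure.zero_le _) (Finset.mem_univ j)
      exact le_antisymm ((h1 _).trans (le_of_eq (ae_iff.1 hρ1))) zero_le

end

end Pool.Agent.Results.MP_4fa179_mp.ProductSystems
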